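import Pool.Agent.TH247.RQ.Main

set_option autoImplicit false

/-! The complex polynomial `P_N(.;q)`: recursions and the estimate of the logarithmic derivative. -/

namespace Pool.Agent.TH247.RQC

open Polynomial

/-- The complex polynomial `P_N(.;q)`. -/
noncomputable def pc (q : ℂ) (N : ℕ) : Polynomial ℂ :=
  ∑ n ∈ Finset.range (N + 1),
    Polynomial.C ((N.choose n : ℂ) * q ^ (n * (n - 1) / 2)) * Polynomial.X ^ n

lemma coeff_pc (q : ℂ) (N n : ℕ) :
    (pc q N).coeff n = (N.choose n : ℂ) * q ^ (n * (n - 1) / 2) := by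
  unfold pc
  rw [Polynomial.finset_sum_coeff]
  simp only [Polynomial.coeff_C_mul, Polynomial.coeff_X_pow]
  by_cases h : n ≤ N
  · rw [Finset.sum_eq_single n]
    · simp
    · intro b _ hb
      rw [if_neg (Ne.symm hb)]; ring
    · intro hn
      exfalso; apply hn; simp; omega
  · rw [Finset.sum_eq_zero]
    · rw [Nat.choose_eq_zero_of_lt (by omega)]; simp
    · intro b hb
      rw [Finset.mem_range] at hb
      rw [if_neg (by omega)]; ring

lemma deriv_pc (q : ℂ) (N : ℕ) :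
    derivative (pc q (N + 1)) = C ((N : ℂ) + 1) * (pc q N).comp (C q * X) := by
  ext n
  rw [coeff_derivative, coeff_pc, coeff_C_mul, comp_C_mul_X_coeff, coeff_pc, Nat.triangle_succ]
  have h := Nat.add_one_mul_choose_eq N n
  have h' : ((N : ℂ) + 1) * (N.choose n : ℂ) = ((N + 1).choose (n + 1) : ℂ) * ((n : ℂ) + 1) := by
    exact_mod_cast h
  rw [pow_add]
  linear_combination (-(q ^ (n * (n - 1) / 2) * q ^ n)) * h'

lemma natDegree_pc_le (q : ℂ) (N : ℕ) : (pc q N).natDegree ≤ N := by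
  rw [natDegree_le_iff_coeff_eq_zero]
  intro n hn
  rw [coeff_pc, Nat.choose_eq_zero_of_lt hn]; simp

lemma eval_zero_pc (q : ℂ) (N : ℕ) : (pc q N).eval 0 = 1 := by
  rw [← coeff_zero_eq_eval_zero, coeff_pc]; simp

lemma eval_pc (q x : ℂ) (N : ℕ) :
    (pc q N).eval x
      = ∑ n ∈ Finset.range (N + 1), (N.choose n : ℂ) * q ^ (n * (n - 1) / 2) * x ^ n := by
  unfold pc
  rw [eval_finset_sum]
  simp

/-- Reciprocal symmetry. -/
lemma eval_symm (q x : ℂ) (hq : q ≠ 0) (hx : x ≠ 0) (M : ℕ) :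
    (pc q (M + 1)).eval x
      = q ^ ((M + 1) * (M + 1 - 1) / 2) * x ^ (M + 1) * (pc q (M + 1)).eval (1 / (q ^ M * x)) := by
  rw [eval_pc, eval_pc, Finset.mul_sum]
  rw [← Finset.sum_flip (fun n => ((M + 1).choose n : ℂ) * q ^ (n * (n - 1) / 2) * x ^ n)]
  apply Finset.sum_congr rfl
  intro m hm
  rw [Finset.mem_range] at hm
  obtain ⟨n, hn⟩ : ∃ n, M + 1 = n + m := ⟨M + 1 - m, by omega⟩
  have h1 : M + 1 - m = n := by omega
  have hc : (M + 1).choose m = (M + 1).choose n := by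
    rw [hn]; exact (Nat.choose_symm_add).symm
  rw [h1, hc, hn, RQ.tri_add n m]
  -- exponent of q
  have h2 : n * (n - 1) / 2 + m * (m - 1) / 2 + n * m + m * (m - 1) / 2
      = n * (n - 1) / 2 + M * m := by
    have h3 : m * (m - 1) / 2 + m * (m - 1) / 2 = m * (m - 1) := by
      have := Nat.even_mul_pred_self m
      have h4 := Nat.div_mul_cancel this.two_dvd
      omega
    rcases m with _ | m
    · simp
    · have h5 : M = n + m := by omega
      rw [h5]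
      simp only [Nat.add_sub_cancel] at h3 ⊢
      have h6 : (n + m) * (m + 1) = n * (m + 1) + (m + 1) * m := by ring
      omega
  have h4 : (1 / (q ^ M * x)) ^ m = (q ^ (M * m))⁻¹ * (x ^ m)⁻¹ := by
    rw [one_div, inv_pow, mul_pow, ← pow_mul, mul_inv]
  rw [h4]
  have hqm : q ^ (M * m) ≠ 0 := pow_ne_zero _ hq
  have hxm : x ^ m ≠ 0 := pow_ne_zero _ hx
  have h5 : q ^ (n * (n - 1) / 2 + m * (m - 1) / 2 + n * m) * q ^ (m * (m - 1) / 2)
      = q ^ (n * (n - 1) / 2) * q ^ (M * m) := by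
    rw [← pow_add, h2, pow_add]
  have h6 : q ^ (n * (n - 1) / 2 + m * (m - 1) / 2 + n * m) * x ^ (n + m) *
        (((n + m).choose n : ℂ) * q ^ (m * (m - 1) / 2) * ((q ^ (M * m))⁻¹ * (x ^ m)⁻¹))
      = ((n + m).choose n : ℂ) * (q ^ (n * (n - 1) / 2 + m * (m - 1) / 2 + n * m) *
        q ^ (m * (m - 1) / 2)) * (q ^ (M * m))⁻¹ * x ^ n * (x ^ m * (x ^ m)⁻¹) := by
    rw [pow_add x]; ring
  rw [h6, h5, mul_inv_cancel₀ hxm]
  field_simp

/-! ### real parts -/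

lemma den_pos {t : ℂ} (ht : t ≠ 1) : 0 < 1 - 2 * t.re + ‖t‖ ^ 2 := by
  have h1 : 0 < Complex.normSq (1 - t) := Complex.normSq_pos.2 (sub_ne_zero.2 (Ne.symm ht))
  rw [Complex.normSq_apply] at h1
  rw [← Complex.normSq_eq_norm_sq, Complex.normSq_apply]
  simp only [Complex.sub_re, Complex.one_re, Complex.sub_im, Complex.one_im] at h1
  nlinarith

lemma re_formula {t : ℂ} :
    (-t / (1 - t)).re = (‖t‖ ^ 2 - t.re) / (1 - 2 * t.re + ‖t‖ ^ 2) := by
  rw [Complex.div_re, ← add_div]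
  have h : Complex.normSq (1 - t) = 1 - 2 * t.re + ‖t‖ ^ 2 := by
    rw [← Complex.normSq_eq_norm_sq, Complex.normSq_apply, Complex.normSq_apply]
    simp only [Complex.sub_re, Complex.one_re, Complex.sub_im, Complex.one_im]
    ring
  rw [h]
  congr 1
  rw [← Complex.normSq_eq_norm_sq, Complex.normSq_apply]
  simp only [Complex.sub_re, Complex.one_re, Complex.sub_im, Complex.one_im, Complex.neg_re,
    Complex.neg_im]
  ring

lemma re_unit {t : ℂ} (ht : t ≠ 1) (hn : ‖t‖ = 1) : (-t / (1 - t)).re = 1 / 2 := by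
  have h := den_pos ht
  rw [re_formula]
  rw [hn] at h ⊢
  rw [div_eq_iff h.ne']
  ring

lemma re_big {t : ℂ} {r : ℝ} (hr : 0 < r) (hr1 : r < 1) (hn : 1 ≤ r * ‖t‖) :
    1 / (1 + r) ≤ (-t / (1 - t)).re := by
  have h0 := norm_nonneg t
  have ht : t ≠ 1 := by
    rintro rfl
    rw [norm_one] at hn
    linarith
  have h := den_pos ht
  rw [re_formula, div_le_div_iff₀ (by linarith) h]
  have h1 : -‖t‖ ≤ t.re := (abs_le.1 (Complex.abs_re_le_norm t)).1
  nlinarith [mul_nonneg (sub_nonneg.2 hn) (by linarith : 0 ≤ ‖t‖ + 1),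
    mul_nonneg (sub_nonneg.2 hr1.le) (by linarith : 0 ≤ t.re + ‖t‖)]

lemma re_small {t : ℂ} {c : ℝ} (hc : 0 < c) (hc1 : c < 1) (hn : ‖t‖ ≤ c) :
    -(c / (1 - c)) ≤ (-t / (1 - t)).re := by
  have h0 := norm_nonneg t
  have ht : t ≠ 1 := by
    rintro rfl
    rw [norm_one] at hn
    linarith
  have h := den_pos ht
  rw [re_formula, ← neg_div, div_le_div_iff₀ (by linarith) h]
  have h1 : t.re ≤ ‖t‖ := (abs_le.1 (Complex.abs_re_le_norm t)).2
  nlinarith [mul_nonneg (sub_nonneg.2 hn) (by linarith : 0 ≤ 1 - ‖t‖),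
    mul_nonneg hc.le (sub_nonneg.2 h1)]

lemma num_sum (K : ℕ) :
    ∑ j ∈ Finset.range K, ((11 / 25 : ℝ) ^ (j + 1) / (1 - (11 / 25 : ℝ) ^ (j + 1))) ≤ 1193 / 1000 := by
  have key : ∀ K : ℕ, ∑ j ∈ Finset.range (K + 2),
      ((11 / 25 : ℝ) ^ (j + 1) / (1 - (11 / 25 : ℝ) ^ (j + 1))) ≤
        (11 / 25) / (1 - 11 / 25) + (11 / 25) ^ 2 / (1 - (11 / 25) ^ 2) +
          ((11 / 25 : ℝ) ^ 3 - (11 / 25 : ℝ) ^ (K + 3)) / ((1 - 11 / 25) * (1 - (11 / 25) ^ 3)) := by
    intro K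
    induction K with
    | zero => simp [Finset.sum_range_succ]
    | succ K ih =>
      rw [Finset.sum_range_succ]
      have h1 : (11 / 25 : ℝ) ^ (K + 2 + 1) ≤ (11 / 25 : ℝ) ^ 3 :=
        pow_le_pow_of_le_one (by norm_num) (by norm_num) (by omega)
      have h2 : (11 / 25 : ℝ) ^ (K + 2 + 1) / (1 - (11 / 25 : ℝ) ^ (K + 2 + 1)) ≤
          (11 / 25 : ℝ) ^ (K + 3) / (1 - (11 / 25) ^ 3) := by
        apply div_le_div_of_nonneg_left (by positivity) (by norm_num)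
        linarith
      have h3 : ((11 / 25 : ℝ) ^ 3 - (11 / 25 : ℝ) ^ (K + 1 + 3)) /
            ((1 - 11 / 25) * (1 - (11 / 25) ^ 3)) =
          ((11 / 25 : ℝ) ^ 3 - (11 / 25 : ℝ) ^ (K + 3)) /
            ((1 - 11 / 25) * (1 - (11 / 25) ^ 3)) +
          (11 / 25 : ℝ) ^ (K + 3) / (1 - (11 / 25) ^ 3) := by
        rw [show K + 1 + 3 = (K + 3) + 1 by ring, pow_succ (11 / 25 : ℝ) (K + 3)]
        norm_num
        ring
      rw [h3]
      have h4 : K + 1 + 2 = K + 2 + 1 := by ring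
      linarith
  have h5 : ∑ j ∈ Finset.range K, ((11 / 25 : ℝ) ^ (j + 1) / (1 - (11 / 25 : ℝ) ^ (j + 1))) ≤
      ∑ j ∈ Finset.range (K + 2), ((11 / 25 : ℝ) ^ (j + 1) / (1 - (11 / 25 : ℝ) ^ (j + 1))) := by
    apply Finset.sum_le_sum_of_subset_of_nonneg
    · intro i hi
      rw [Finset.mem_range] at hi ⊢
      omega
    · intro i _ _
      apply div_nonneg (by positivity)
      have : (11 / 25 : ℝ) ^ (i + 1) ≤ 1 := pow_le_one₀ (by norm_num) (by norm_num)
      linarith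
  refine h5.trans ((key K).trans ?_)
  have h6 : 0 ≤ (11 / 25 : ℝ) ^ (K + 3) := by positivity
  have h7 : ((11 / 25 : ℝ) ^ 3 - (11 / 25 : ℝ) ^ (K + 3)) / ((1 - 11 / 25) * (1 - (11 / 25) ^ 3)) ≤
      (11 / 25 : ℝ) ^ 3 / ((1 - 11 / 25) * (1 - (11 / 25) ^ 3)) := by
    apply div_le_div_of_nonneg_right _ (by norm_num)
    linarith
  refine (add_le_add_right h7 _).trans ?_
  norm_num

end Pool.Agent.TH247.RQC
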