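import Pool.Agent.TH247.RQC.Alg

set_option autoImplicit false

namespace Pool.Agent.TH247.RQC

open Polynomial

lemma sep_up {u : ℕ → ℂ} {M : ℕ} (hsep : ∀ i, i < M → ‖u (i + 1)‖ ≤ (11 / 25 : ℝ) * ‖u i‖)
    {i j : ℕ} (hj : i + j ≤ M) : ‖u (i + j)‖ ≤ (11 / 25 : ℝ) ^ j * ‖u i‖ := by
  induction j with
  | zero => simp
  | succ j ih =>
    have h1 := hsep (i + j) (by omega)
    have h2 := ih (by omega)
    rw [← add_assoc, pow_succ]
    nlinarith

/-- The polynomial `P_M(.;q)` has no root `q x` with `|x|` the modulus of one of the roots of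
`P_{M+1}(.;q)` other than the smallest one, if the roots are separated. -/
lemma no_crit {q : ℂ} {M : ℕ} {u : ℕ → ℂ} (hu0 : ∀ i, i ≤ M → u i ≠ 0)
    (hsep : ∀ i, i < M → ‖u (i + 1)‖ ≤ (11 / 25 : ℝ) * ‖u i‖)
    (hfac : ∀ x, (pc q (M + 1)).eval x = ∏ i ∈ Finset.range (M + 1), (1 - u i * x))
    {k : ℕ} (hk1 : 1 ≤ k) (hk : k ≤ M) {x : ℂ} (hx : ‖u k‖ * ‖x‖ = 1) :
    (pc q M).eval (q * x) ≠ 0 := by
  intro h0
  have hpoly : pc q (M + 1) = ∏ i ∈ Finset.range (M + 1), (1 - C (u i) * X) := by
    apply Polynomial.funext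
    intro t
    rw [hfac t, eval_prod]
    apply Finset.prod_congr rfl
    intro i _
    simp
  have hd : (derivative (pc q (M + 1))).eval x = 0 := by
    rw [deriv_pc, eval_mul, eval_comp]
    simp [h0]
  have hx0 : x ≠ 0 := by
    rintro rfl
    simp at hx
  have hxp : 0 < ‖x‖ := norm_pos_iff.2 hx0
  -- the norms
  have hlow : ∀ i, i < k → 1 ≤ (11 / 25 : ℝ) * ‖u i * x‖ := by
    intro i hi
    have h1 : ‖u k‖ ≤ (11 / 25 : ℝ) * ‖u i‖ := by
      obtain ⟨j, hj⟩ := Nat.exists_eq_add_of_lt hi
      have h2 := sep_up hsep (i := i) (j := j + 1) (by omega)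
      rw [hj, add_assoc]
      refine h2.trans ?_
      apply mul_le_mul_of_nonneg_right _ (norm_nonneg _)
      calc (11 / 25 : ℝ) ^ (j + 1) ≤ (11 / 25 : ℝ) ^ 1 :=
            pow_le_pow_of_le_one (by norm_num) (by norm_num) (by omega)
        _ = 11 / 25 := pow_one _
    rw [norm_mul, ← hx]
    have h3 := mul_le_mul_of_nonneg_right h1 hxp.le
    linarith
  have hhigh : ∀ j, k + 1 + j ≤ M → ‖u (k + 1 + j) * x‖ ≤ (11 / 25 : ℝ) ^ (j + 1) := by
    intro j hj
    have h2 := sep_up hsep (i := k) (j := j + 1) (by omega)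
    have h4 : k + 1 + j = k + (j + 1) := by ring
    rw [norm_mul, h4]
    have h3 := mul_le_mul_of_nonneg_right h2 hxp.le
    rw [mul_assoc, hx, mul_one] at h3
    exact h3
  have hne : ∀ i, i ≤ M → i ≠ k → 1 - u i * x ≠ 0 := by
    intro i hi hik h1
    have h2 : ‖u i * x‖ = 1 := by
      rw [← sub_eq_zero.1 h1, norm_one]
    rcases lt_or_gt_of_ne hik with h3 | h3
    · have h4 := hlow i h3
      rw [h2] at h4
      norm_num at h4
    · obtain ⟨j, hj⟩ := Nat.exists_eq_add_of_lt h3
      have h5 : i = k + 1 + j := by omega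
      have h4 := hhigh j (by omega)
      rw [← h5, h2] at h4
      have h6 : (11 / 25 : ℝ) ^ (j + 1) < 1 := pow_lt_one₀ (by norm_num) (by norm_num) (by omega)
      linarith
  have hkm : k ∈ Finset.range (M + 1) := Finset.mem_range.2 (by omega)
  by_cases hkx : 1 - u k * x = 0
  · -- the point is the root
    rw [hpoly, ← Finset.mul_prod_erase _ _ hkm, derivative_mul, eval_add, eval_mul, eval_mul] at hd
    have h1 : (1 - C (u k) * X : Polynomial ℂ).eval x = 0 := by simpa using hkx
    rw [h1, zero_mul, add_zero] at hd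
    have h2 : (derivative (1 - C (u k) * X : Polynomial ℂ)).eval x = - u k := by
      simp
    rw [h2, eval_prod] at hd
    rcases mul_eq_zero.1 hd with h3 | h3
    · exact hu0 k hk (neg_eq_zero.1 h3)
    · rw [Finset.prod_eq_zero_iff] at h3
      obtain ⟨i, hi, h4⟩ := h3
      rw [Finset.mem_erase, Finset.mem_range] at hi
      exact hne i (by omega) hi.1 (by simpa using h4)
  · have hall : ∀ i ∈ Finset.range (M + 1), 1 - u i * x ≠ 0 := by
      intro i hi
      rw [Finset.mem_range] at hi
      by_cases h1 : i = k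
      · rw [h1]; exact hkx
      · exact hne i (by omega) h1
    have hsum : ∑ i ∈ Finset.range (M + 1), (-(u i * x) / (1 - u i * x)) = 0 := by
      rw [hpoly, derivative_prod_finset, eval_finset_sum] at hd
      have hP : ∏ i ∈ Finset.range (M + 1), (1 - u i * x) ≠ 0 := Finset.prod_ne_zero_iff.2 hall
      have h1 : (∑ i ∈ Finset.range (M + 1), (-(u i * x) / (1 - u i * x))) *
          ∏ i ∈ Finset.range (M + 1), (1 - u i * x) = x * 0 := by
        rw [← hd, Finset.mul_sum, Finset.sum_mul]
        apply Finset.sum_congr rfl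
        intro i hi
        rw [eval_mul, eval_prod, ← Finset.mul_prod_erase _ _ hi]
        have h2 : (derivative (1 - C (u i) * X : Polynomial ℂ)).eval x = - u i := by
          simp
        rw [h2]
        have h3 : ∏ j ∈ (Finset.range (M + 1)).erase i, (1 - C (u j) * X : Polynomial ℂ).eval x =
            ∏ j ∈ (Finset.range (M + 1)).erase i, (1 - u j * x) := by
          apply Finset.prod_congr rfl
          intro j _
          simp
        rw [h3]
        have h4 := hall i hi
        field_simp
      rw [mul_zero] at h1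
      exact (mul_eq_zero.1 h1).resolve_right hP
    have hre := congrArg Complex.re hsum
    rw [Complex.re_sum, Complex.zero_re] at hre
    rw [← Finset.sum_range_add_sum_Ico _ (by omega : k ≤ M + 1),
      Finset.sum_eq_sum_Ico_succ_bot (by omega : k < M + 1), Finset.sum_Ico_eq_sum_range] at hre
    have hA : (1 / (1 + 11 / 25) : ℝ) ≤
        ∑ i ∈ Finset.range k, (-(u i * x) / (1 - u i * x)).re := by
      calc (1 / (1 + 11 / 25) : ℝ) ≤ ∑ i ∈ Finset.range k, (1 / (1 + 11 / 25) : ℝ) := by
            rw [Finset.sum_const, Finset.card_range, nsmul_eq_mul]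
            have : (1 : ℝ) ≤ k := by exact_mod_cast hk1
            nlinarith
        _ ≤ _ := by
            apply Finset.sum_le_sum
            intro i hi
            exact re_big (by norm_num) (by norm_num) (hlow i (Finset.mem_range.1 hi))
    have hB : (-(u k * x) / (1 - u k * x)).re = 1 / 2 := by
      apply re_unit
      · intro h1
        rw [h1, sub_self] at hkx
        exact hkx rfl
      · rw [norm_mul]; exact hx
    have hC : -(1193 / 1000 : ℝ) ≤ ∑ j ∈ Finset.range (M + 1 - (k + 1)),
        (-(u (k + 1 + j) * x) / (1 - u (k + 1 + j) * x)).re := by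
      refine (neg_le_neg (num_sum (M + 1 - (k + 1)))).trans ?_
      rw [← Finset.sum_neg_distrib]
      apply Finset.sum_le_sum
      intro j hj
      rw [Finset.mem_range] at hj
      exact re_small (by positivity) (pow_lt_one₀ (by norm_num) (by norm_num) (by omega))
        (hhigh j (by omega))
    rw [hB] at hre
    norm_num at hA
    linarith

end Pool.Agent.TH247.RQC
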