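import Pool.Agent.TH247.RQC.Pert

set_option autoImplicit false

namespace Pool.Agent.TH247.RQC

open Polynomial Pool.Agent.TH247.RQ

/-- The roots of two consecutive polynomials interlace. -/
lemma good_step_il {q σ : ℝ} {M : ℕ} {y : ℕ → ℝ} (h : Good q σ M y) (hq0 : q ≠ 0)
    (hq1 : |q| < 1) (hσ : σ = 1 ∨ σ = -1) (hqσ : q = σ * |q|) :
    ∃ r, Good q σ (M + 1) r ∧ ∀ i, i ≤ M → r i < y i ∧ y i < |q| * r (i + 1) := by
  have hqp : 0 < |q| := abs_pos.mpr hq0
  have hex : ∀ k, ∃ t, k ≤ M → (lo q y k < t ∧ t < y k ∧ (pn q (M + 2)).eval (-σ ^ k * t) = 0) := by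
    intro k
    by_cases hk : k ≤ M
    · obtain ⟨t, ht⟩ := step_root h hq0 hq1 hσ hqσ k hk
      exact ⟨t, fun _ => ht⟩
    · exact ⟨0, fun h' => absurd h' hk⟩
  choose s hs using hex
  have hlo0 : ∀ k, k ≤ M → 0 ≤ lo q y k := by
    intro k hk
    rw [lo]
    split_ifs with h0
    · exact le_refl _
    · exact div_nonneg (h.pos _ (by omega)).le hqp.le
  have hspos : ∀ k, k ≤ M → 0 < s k := fun k hk => lt_of_le_of_lt (hlo0 k hk) (hs k hk).1
  set L : ℝ := (|q| ^ (M + 1) * s 0)⁻¹ with hL
  have hs0 : 0 < s 0 := hspos 0 (by omega)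
  have hLpos : 0 < L := by rw [hL]; positivity
  set r : ℕ → ℝ := fun k => if k ≤ M then s k else L with hr
  have hrle : ∀ k, k ≤ M → r k = s k := fun k hk => by rw [hr]; simp [hk]
  have hrlast : r (M + 1) = L := by rw [hr]; simp
  have hpos : ∀ i, i ≤ M + 1 → 0 < r i := by
    intro i hi
    rcases Nat.lt_or_ge M i with h1 | h1
    · have : i = M + 1 := by omega
      rw [this, hrlast]; exact hLpos
    · rw [hrle i h1]; exact hspos i h1
  have hlast : y M / |q| < L := by
    have h0 := h.sym
    have hy0 := h.pos 0 (by omega)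
    have h1 : s 0 < y 0 := (hs 0 (by omega)).2.1
    have h2 : y M / |q| = (|q| ^ (M + 1) * y 0)⁻¹ := by
      rw [eq_comm, inv_eq_iff_eq_inv, inv_div, eq_div_iff (h.pos M le_rfl).ne']
      rw [pow_succ]
      calc |q| ^ M * |q| * y 0 * y M = |q| * (y 0 * y M * |q| ^ M) := by ring
        _ = |q| := by rw [h0, mul_one]
    rw [h2, hL]
    apply inv_strictAnti₀ (by positivity)
    exact mul_lt_mul_of_pos_left h1 (by positivity)
  have hil : ∀ i, i ≤ M → r i < y i ∧ y i < |q| * r (i + 1) := by
    intro i hi'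
    rw [hrle i hi']
    have h1 : s i < y i := (hs i hi').2.1
    refine ⟨h1, ?_⟩
    rcases Nat.lt_or_ge i M with h2 | h2
    · rw [hrle (i + 1) (by omega)]
      have h3 := (hs (i + 1) (by omega)).1
      rw [lo, if_neg (by omega), Nat.add_sub_cancel, div_lt_iff₀ hqp] at h3
      linarith [mul_comm (s (i + 1)) |q|]
    · have : i = M := by omega
      subst this
      rw [hrlast]
      rw [div_lt_iff₀ hqp] at hlast
      linarith [mul_comm L |q|]
  have hgap : ∀ i, i + 1 ≤ M + 1 → r i < |q| * r (i + 1) := by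
    intro i hi
    have h1 := hil i (by omega)
    linarith [h1.1, h1.2]
  have hroot : ∀ i, i ≤ M + 1 → (pn q (M + 2)).eval (-σ ^ i * r i) = 0 := by
    intro i hi
    rcases Nat.lt_or_ge M i with h1 | h1
    · have hiM : i = M + 1 := by omega
      subst hiM
      rw [hrlast]
      have hσ2 : σ * σ = 1 := by rcases hσ with h | h <;> rw [h] <;> norm_num
      have hσ0 : σ ≠ 0 := by rcases hσ with h | h <;> rw [h] <;> norm_num
      have hσn : ∀ n : ℕ, σ ^ n * σ ^ n = 1 := fun n => by rw [← mul_pow, hσ2, one_pow]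
      have hx : -σ ^ (M + 1) * L ≠ 0 :=
        mul_ne_zero (neg_ne_zero.mpr (pow_ne_zero _ hσ0)) hLpos.ne'
      rw [RQ.eval_symm q _ hq0 hx (M + 1)]
      apply mul_eq_zero_of_right
      have h2 : 1 / (q ^ (M + 1) * (-σ ^ (M + 1) * L)) = -σ ^ 0 * s 0 := by
        have h3 : q ^ (M + 1) * (-σ ^ (M + 1) * L) = - (s 0)⁻¹ := by
          conv_lhs => rw [hqσ]
          rw [mul_pow, hL, mul_inv]
          have h4 : (|q| ^ (M + 1)) ≠ 0 := by positivity
          calc σ ^ (M + 1) * |q| ^ (M + 1) * (-σ ^ (M + 1) * ((|q| ^ (M + 1))⁻¹ * (s 0)⁻¹))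
              = -(σ ^ (M + 1) * σ ^ (M + 1)) * (|q| ^ (M + 1) * (|q| ^ (M + 1))⁻¹) * (s 0)⁻¹ := by ring
            _ = -(s 0)⁻¹ := by rw [hσn, mul_inv_cancel₀ h4]; ring
        rw [h3, one_div, inv_neg, inv_inv]; simp
      rw [h2]
      exact (hs 0 (by omega)).2.2
    · rw [hrle i h1]
      exact (hs i h1).2.2
  have hchain : ∀ i j, i < j → j ≤ M + 1 → r i < r j := by
    intro i j hij hj
    induction j with
    | zero => omega
    | succ j ih =>
      have h2 := hgap j hj
      have h3 := hpos (j + 1) hj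
      have h4 : r j < r (j + 1) := by nlinarith [mul_lt_mul_of_pos_right hq1 h3]
      rcases Nat.lt_or_ge i j with h1 | h1
      · exact (ih h1 (by omega)).trans h4
      · have : i = j := by omega
        rw [this]; exact h4
  refine ⟨r, ⟨hpos, hgap, ?_, ?_⟩, hil⟩
  · rw [hrlast, hrle 0 (by omega), hL]
    have h4 : (|q| ^ (M + 1)) ≠ 0 := by positivity
    field_simp
  · -- factorization
    have hσ0 : σ ≠ 0 := by rcases hσ with h | h <;> rw [h] <;> norm_num
    have habs : ∀ i, |σ ^ i| = 1 := by
      intro i; rcases sigma_cases hσ i with h | h <;> rw [h] <;> simp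
    set Q : Polynomial ℝ := ∏ i ∈ Finset.range (M + 2), (1 + C (σ ^ i / r i) * X) with hQ
    have hQd : Q.natDegree ≤ M + 2 := by
      rw [hQ]
      refine (natDegree_prod_le _ _).trans ?_
      calc ∑ i ∈ Finset.range (M + 2), (1 + C (σ ^ i / r i) * X : Polynomial ℝ).natDegree
          ≤ ∑ i ∈ Finset.range (M + 2), 1 := by
            apply Finset.sum_le_sum
            intro i _
            have : (1 + C (σ ^ i / r i) * X : Polynomial ℝ) = C (σ ^ i / r i) * X + C 1 := by
              rw [C_1]; ring
            rw [this]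
            exact natDegree_linear_le
        _ = M + 2 := by simp
    have hQe : ∀ x, Q.eval x = ∏ i ∈ Finset.range (M + 2), (1 + σ ^ i * x / r i) := by
      intro x
      rw [hQ, eval_prod]
      apply Finset.prod_congr rfl
      intro i _
      simp only [eval_add, eval_one, eval_mul, eval_C, eval_X]
      ring
    have hD : pn q (M + 2) - Q = 0 := by
      set S : Finset ℝ := insert 0 ((Finset.range (M + 2)).image (fun i => -σ ^ i * r i)) with hS
      apply eq_zero_of_natDegree_lt_card_of_eval_eq_zero' _ S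
      · intro x hx
        rw [hS, Finset.mem_insert] at hx
        rcases hx with hx | hx
        · rw [hx, eval_sub, eval_zero_pn, hQe]; simp
        · rw [Finset.mem_image] at hx
          obtain ⟨i, hi, rfl⟩ := hx
          rw [Finset.mem_range] at hi
          rw [eval_sub, hroot i (by omega), hQe, zero_sub, neg_eq_zero]
          apply Finset.prod_eq_zero (i := i) (by simpa using hi)
          have hri := hpos i (by omega)
          have hσ2 : σ * σ = 1 := by rcases hσ with h | h <;> rw [h] <;> norm_num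
          have h2 : σ ^ i * (-σ ^ i * r i) / r i = -(σ ^ i * σ ^ i) := by
            field_simp
          rw [h2, ← mul_pow, hσ2, one_pow]; ring
      · have hcard : S.card = M + 3 := by
          rw [hS, Finset.card_insert_of_notMem, Finset.card_image_of_injOn, Finset.card_range]
          · intro i hi j hj hij
            simp only [Finset.coe_range, Set.mem_Iio] at hi hj
            have h1 : |(-σ ^ i * r i)| = |(-σ ^ j * r j)| := by
              simp only at hij; rw [hij]
            rw [abs_mul, abs_mul, abs_neg, abs_neg, habs, habs, one_mul, one_mul,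
              abs_of_pos (hpos i (by omega)), abs_of_pos (hpos j (by omega))] at h1
            rcases lt_trichotomy i j with h2 | h2 | h2
            · exact absurd h1 (hchain i j h2 (by omega)).ne
            · exact h2
            · exact absurd h1 (hchain j i h2 (by omega)).ne'
          · intro hmem
            rw [Finset.mem_image] at hmem
            obtain ⟨i, hi, h0⟩ := hmem
            rw [Finset.mem_range] at hi
            exact (mul_ne_zero (neg_ne_zero.mpr (pow_ne_zero _ hσ0))
              (hpos i (by omega)).ne') h0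
        rw [hcard]
        have := natDegree_sub_le (pn q (M + 2)) Q
        have h1 := natDegree_pn_le q (M + 2)
        omega
    intro x
    have : pn q (M + 1 + 1) = Q := sub_eq_zero.mp hD
    rw [this, hQe]


lemma cfac {q : ℝ} {M : ℕ} {y : ℕ → ℝ} (h : Good q 1 M y) (x : ℂ) :
    (pc (q : ℂ) (M + 1)).eval x
      = ∏ i ∈ Finset.range (M + 1), (1 - ((-(1 / y i) : ℝ) : ℂ) * x) := by
  have hpoly : pn q (M + 1) = ∏ i ∈ Finset.range (M + 1), (1 + C (1 / y i) * X) := by
    apply Polynomial.funext
    intro t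
    rw [h.fac t, eval_prod]
    apply Finset.prod_congr rfl
    intro i _
    simp only [eval_add, eval_one, eval_mul, eval_C, eval_X, one_pow]
    ring
  have hmap : pc (q : ℂ) (M + 1) = (pn q (M + 1)).map (algebraMap ℝ ℂ) := by
    rw [pc, pn, Polynomial.map_sum]
    apply Finset.sum_congr rfl
    intro n _
    rw [Polynomial.map_mul, Polynomial.map_pow, map_X, map_C]
    simp
  rw [hmap, hpoly, Polynomial.map_prod, eval_prod]
  apply Finset.prod_congr rfl
  intro i _
  rw [Polynomial.map_add, Polynomial.map_one, Polynomial.map_mul, map_C, map_X]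
  simp only [eval_add, eval_one, eval_mul, eval_C, eval_X, Complex.coe_algebraMap]
  push_cast
  ring

/-- The base point. -/
lemma base {ρ : ℝ} (h0 : 0 < ρ) (h1 : ρ < 1) (M : ℕ) : ∃ u v, St ρ (ρ : ℂ) M u v := by
  rcases M with _ | m
  · obtain ⟨u, hu⟩ := fac_exists 1 (pc (ρ : ℂ) (0 + 1)) (natDegree_pc_le _ _) (eval_zero_pc _ _)
    obtain ⟨v, hv⟩ := fac_exists 0 (pc (ρ : ℂ) 0) (natDegree_pc_le _ _) (eval_zero_pc _ _)
    exact ⟨u, v, hu, hv, fun j hj => by omega, fun j hj => by omega⟩
  · have ha : |ρ| = ρ := abs_of_pos h0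
    have hq1 : |ρ| < 1 := by rw [ha]; exact h1
    obtain ⟨y, hy⟩ := exists_good (σ := 1) h0.ne' hq1 (Or.inl rfl) (by rw [one_mul, ha]) m
    obtain ⟨r, hr, hil⟩ := good_step_il hy h0.ne' hq1 (Or.inl rfl) (by rw [one_mul, ha])
    refine ⟨fun i => ((-(1 / r i) : ℝ) : ℂ), fun i => ((-(1 / y i) : ℝ) : ℂ),
      fun x => cfac hr x, fun x => cfac hy x, fun j hj => ?_, fun j hj => ?_⟩
    · have h2 := hr.pos j (by omega)
      have h3 := hy.pos j (by omega)
      have h4 := (hil j (by omega)).1
      rw [Complex.norm_real, Complex.norm_real, norm_neg, norm_neg, Real.norm_of_nonneg (by positivity),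
        Real.norm_of_nonneg (by positivity)]
      exact one_div_lt_one_div_of_lt h2 h4
    · have h2 := hr.pos (j + 1) (by omega)
      have h3 := hy.pos j (by omega)
      have h4 := (hil j (by omega)).2
      rw [ha] at h4
      rw [Complex.norm_real, Complex.norm_real, norm_neg, norm_neg, Real.norm_of_nonneg (by positivity),
        Real.norm_of_nonneg (by positivity), mul_one_div, div_lt_div_iff₀ h2 h3, one_mul]
      linarith

end Pool.Agent.TH247.RQC
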