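import Pool.Agent.TH247.RQC.Inter

set_option autoImplicit false

namespace Pool.Agent.TH247.RQC

open Polynomial Filter Topology

lemma root_bound {q : ℂ} (hq : ‖q‖ ≤ 1) {N : ℕ} {u : ℕ → ℂ}
    (h : ∀ x, (pc q N).eval x = ∏ i ∈ Finset.range N, (1 - u i * x)) {i : ℕ} (hi : i < N) :
    ‖u i‖ ≤ 2 ^ N := by
  by_contra hcon
  push Not at hcon
  have h2N : (1 : ℝ) ≤ 2 ^ N := one_le_pow₀ (by norm_num)
  have hu : 0 < ‖u i‖ := by linarith
  have hu0 : u i ≠ 0 := norm_pos_iff.1 hu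
  set x : ℂ := 1 / u i with hx
  have hxn : ‖x‖ * ‖u i‖ = 1 := by
    rw [hx, norm_div, norm_one]
    field_simp
  have hx0 : 0 ≤ ‖x‖ := norm_nonneg x
  have hx1 : ‖x‖ ≤ 1 := by
    by_contra h3
    push Not at h3
    nlinarith
  have hx2 : ‖x‖ * 2 ^ N < 1 := by
    have h3 : 0 < ‖x‖ := by
      rcases hx0.lt_or_eq with h4 | h4
      · exact h4
      · rw [← h4, zero_mul] at hxn
        exact absurd hxn (by norm_num)
    have h4 := mul_lt_mul_of_pos_left hcon h3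
    linarith
  have hP : (pc q N).eval x = 0 := by
    rw [h]
    apply Finset.prod_eq_zero (Finset.mem_range.2 hi)
    rw [hx, mul_one_div_cancel hu0, sub_self]
  rw [eval_pc, Finset.sum_range_succ'] at hP
  have hc : ((N.choose 0 : ℕ) : ℂ) * q ^ (0 * (0 - 1) / 2) * x ^ 0 = 1 := by simp
  rw [hc] at hP
  have hS : ‖∑ n ∈ Finset.range N, (N.choose (n + 1) : ℂ) * q ^ ((n + 1) * (n + 1 - 1) / 2) *
      x ^ (n + 1)‖ = 1 := by
    rw [eq_neg_of_add_eq_zero_left hP, norm_neg, norm_one]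
  have hle : ‖∑ n ∈ Finset.range N, (N.choose (n + 1) : ℂ) * q ^ ((n + 1) * (n + 1 - 1) / 2) *
      x ^ (n + 1)‖ ≤ ∑ n ∈ Finset.range N, (N.choose (n + 1) : ℝ) * ‖x‖ := by
    refine (norm_sum_le _ _).trans (Finset.sum_le_sum fun n _ => ?_)
    rw [norm_mul, norm_mul, norm_pow, norm_pow, Complex.norm_natCast]
    have h3 : ‖q‖ ^ ((n + 1) * (n + 1 - 1) / 2) ≤ 1 := pow_le_one₀ (norm_nonneg _) hq
    have h4 : ‖x‖ ^ (n + 1) ≤ ‖x‖ := by
      rw [pow_succ]
      have h5 : ‖x‖ ^ n ≤ 1 := pow_le_one₀ hx0 hx1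
      nlinarith
    have h6 : (0 : ℝ) ≤ (N.choose (n + 1) : ℝ) := Nat.cast_nonneg _
    have h7 : ‖q‖ ^ ((n + 1) * (n + 1 - 1) / 2) * ‖x‖ ^ (n + 1) ≤ ‖x‖ := by
      calc ‖q‖ ^ ((n + 1) * (n + 1 - 1) / 2) * ‖x‖ ^ (n + 1) ≤ 1 * ‖x‖ :=
            mul_le_mul h3 h4 (by positivity) (by norm_num)
        _ = ‖x‖ := one_mul _
    rw [mul_assoc]
    exact mul_le_mul_of_nonneg_left h7 h6
  have hch : ∑ n ∈ Finset.range N, (N.choose (n + 1) : ℝ) ≤ 2 ^ N := by
    have h3 := Nat.sum_range_choose N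
    rw [Finset.sum_range_succ'] at h3
    have h4 : ∑ n ∈ Finset.range N, N.choose (n + 1) ≤ 2 ^ N := by omega
    exact_mod_cast h4
  rw [← Finset.sum_mul, hS] at hle
  have h8 := mul_le_mul_of_nonneg_right hch hx0
  linarith

lemma closedT {ρ : ℝ} {M : ℕ} {Q : ℝ → ℂ} (hQ : Continuous Q) (hQ1 : ∀ θ, ‖Q θ‖ ≤ 1) :
    IsClosed {θ | ∃ u v, Wk ρ (Q θ) M u v} := by
  set K : Set (ℕ → ℂ) := Set.pi Set.univ (fun _ => Metric.closedBall (0 : ℂ) (2 ^ (M + 1)))
    with hKdef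
  have hK : IsCompact K := isCompact_univ_pi (fun _ => isCompact_closedBall _ _)
  haveI : CompactSpace K := isCompact_iff_compactSpace.1 hK
  set E : Set (ℝ × (K × K)) := {p | Wk ρ (Q p.1) M p.2.1.1 p.2.2.1} with hE
  have hc1 : ∀ i : ℕ, Continuous fun p : ℝ × (K × K) => (p.2.1.1 i : ℂ) := fun i =>
    (continuous_apply i).comp (continuous_subtype_val.comp (continuous_fst.comp continuous_snd))
  have hc2 : ∀ i : ℕ, Continuous fun p : ℝ × (K × K) => (p.2.2.1 i : ℂ) := fun i =>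
    (continuous_apply i).comp (continuous_subtype_val.comp (continuous_snd.comp continuous_snd))
  have hc3 : ∀ (N : ℕ) (x : ℂ), Continuous fun p : ℝ × (K × K) => (pc (Q p.1) N).eval x :=
    fun N x => (cont_eval hQ N x).comp continuous_fst
  have hclosed : IsClosed E := by
    have h1 : E = (⋂ x : ℂ, {p | (pc (Q p.1) (M + 1)).eval x =
          ∏ i ∈ Finset.range (M + 1), (1 - p.2.1.1 i * x)}) ∩
        (⋂ x : ℂ, {p | (pc (Q p.1) M).eval x = ∏ i ∈ Finset.range M, (1 - p.2.2.1 i * x)}) ∩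
        (⋂ j : ℕ, ⋂ _ : j < M, {p | ‖p.2.2.1 j‖ ≤ ‖p.2.1.1 j‖}) ∩
        (⋂ j : ℕ, ⋂ _ : j < M, {p | ‖p.2.1.1 (j + 1)‖ ≤ ρ * ‖p.2.2.1 j‖}) := by
      ext p
      simp only [hE, Set.mem_inter_iff, Set.mem_iInter, Set.mem_setOf_eq]
      constructor
      · intro h
        exact ⟨⟨⟨h.fu, h.fv⟩, h.le1⟩, h.le2⟩
      · rintro ⟨⟨⟨a, b⟩, c⟩, d⟩
        exact ⟨a, b, c, d⟩
    rw [h1]
    refine (((isClosed_iInter fun x => ?_).inter (isClosed_iInter fun x => ?_)).inter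
      (isClosed_iInter fun j => isClosed_iInter fun _ => ?_)).inter
      (isClosed_iInter fun j => isClosed_iInter fun _ => ?_)
    · exact isClosed_eq (hc3 _ x) (continuous_finset_prod _ fun i _ =>
        continuous_const.sub ((hc1 i).mul continuous_const))
    · exact isClosed_eq (hc3 _ x) (continuous_finset_prod _ fun i _ =>
        continuous_const.sub ((hc2 i).mul continuous_const))
    · exact isClosed_le (hc2 j).norm (hc1 j).norm
    · exact isClosed_le (hc1 (j + 1)).norm (continuous_const.mul (hc2 j).norm)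
  have himg : {θ | ∃ u v, Wk ρ (Q θ) M u v} = Prod.fst '' E := by
    ext θ
    constructor
    · rintro ⟨u, v, h⟩
      have hbu : ∀ i, i < M + 1 → ‖u i‖ ≤ 2 ^ (M + 1) := fun i hi =>
        root_bound (hQ1 θ) h.fu hi
      have hbv : ∀ i, i < M → ‖v i‖ ≤ 2 ^ (M + 1) := fun i hi =>
        (root_bound (hQ1 θ) h.fv hi).trans (pow_le_pow_right₀ (by norm_num) (by omega))
      have hpos : (0 : ℝ) ≤ 2 ^ (M + 1) := by positivity
      set u' : ℕ → ℂ := fun i => if i < M + 1 then u i else 0 with hu'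
      set v' : ℕ → ℂ := fun i => if i < M then v i else 0 with hv'
      have hu1 : ∀ i, i < M + 1 → u' i = u i := fun i hi => by rw [hu']; simp [hi]
      have hv1 : ∀ i, i < M → v' i = v i := fun i hi => by rw [hv']; simp [hi]
      have hKu : u' ∈ K := by
        rw [hKdef, Set.mem_pi]
        intro i _
        rw [mem_closedBall_zero_iff]
        by_cases hi : i < M + 1
        · rw [hu1 i hi]; exact hbu i hi
        · rw [hu']; simp [hi]
      have hKv : v' ∈ K := by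
        rw [hKdef, Set.mem_pi]
        intro i _
        rw [mem_closedBall_zero_iff]
        by_cases hi : i < M
        · rw [hv1 i hi]; exact hbv i hi
        · rw [hv']; simp [hi]
      refine ⟨(θ, (⟨u', hKu⟩, ⟨v', hKv⟩)), ?_, rfl⟩
      change Wk ρ (Q θ) M u' v'
      refine ⟨fun x => ?_, fun x => ?_, fun j hj => ?_, fun j hj => ?_⟩
      · rw [h.fu]
        apply Finset.prod_congr rfl
        intro i hi
        rw [hu1 i (Finset.mem_range.1 hi)]
      · rw [h.fv]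
        apply Finset.prod_congr rfl
        intro i hi
        rw [hv1 i (Finset.mem_range.1 hi)]
      · rw [hv1 j hj, hu1 j (by omega)]
        exact h.le1 j hj
      · rw [hv1 j hj, hu1 (j + 1) (by omega)]
        exact h.le2 j hj
    · rintro ⟨⟨θ', ⟨u, v⟩⟩, hp, rfl⟩
      exact ⟨u.1, v.1, hp⟩
  rw [himg]
  exact isClosedMap_fst_of_compactSpace E hclosed

/-- Strict interlacing for all `q` with `0 < |q| ≤ 11/25`. -/
theorem exists_st {q : ℂ} (hq0 : q ≠ 0) (hq : ‖q‖ ≤ 11 / 25) (M : ℕ) :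
    ∃ u v, St ‖q‖ q M u v := by
  set ρ : ℝ := ‖q‖ with hρ
  have hρ0 : 0 < ρ := norm_pos_iff.2 hq0
  set Q : ℝ → ℂ := fun θ => (ρ : ℂ) * Complex.exp (θ * Complex.I) with hQdef
  have hQ : Continuous Q := by
    rw [hQdef]
    fun_prop
  have hQn : ∀ θ, ‖Q θ‖ = ρ := by
    intro θ
    rw [hQdef]
    simp only
    rw [norm_mul, Complex.norm_exp_ofReal_mul_I, mul_one, Complex.norm_real,
      Real.norm_of_nonneg hρ0.le]
  have hne : ∀ θ, Q θ ≠ 0 := fun θ => by
    rw [← norm_pos_iff, hQn]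
    exact hρ0
  have hcl : IsClosed {θ | ∃ u v, Wk ρ (Q θ) M u v} :=
    closedT hQ (fun θ => by rw [hQn]; linarith)
  have hop : IsOpen {θ | ∃ u v, Wk ρ (Q θ) M u v} := by
    rw [isOpen_iff_mem_nhds]
    rintro θ ⟨u, v, h⟩
    have h1 := (h.st hρ0 hq (hQn θ)).near hQ (by linarith) (hne θ)
    filter_upwards [h1] with θ' h2
    obtain ⟨u', v', h3⟩ := h2
    exact ⟨u', v', h3.wk⟩
  have huniv : {θ | ∃ u v, Wk ρ (Q θ) M u v} = Set.univ := by
    apply IsClopen.eq_univ ⟨hcl, hop⟩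
    obtain ⟨u, v, h⟩ := base hρ0 (by linarith : ρ < 1) M
    refine ⟨0, u, v, ?_⟩
    have h0 : Q 0 = (ρ : ℂ) := by
      rw [hQdef]
      simp
    rw [h0]
    exact h.wk
  have hmem : q.arg ∈ {θ : ℝ | ∃ u v, Wk ρ (Q θ) M u v} := by
    rw [huniv]
    exact Set.mem_univ _
  obtain ⟨u, v, h⟩ := hmem
  have hqQ : Q q.arg = q := by
    rw [hQdef]
    simp only
    rw [hρ]
    exact Complex.norm_mul_exp_arg_mul_I q
  rw [hqQ] at h
  exact ⟨u, v, h.st hρ0 hq rfl⟩

end Pool.Agent.TH247.RQC
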