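import Pool.Agent.TH247.RQC.Weak

set_option autoImplicit false

namespace Pool.Agent.TH247.RQC

open Polynomial Filter Topology

lemma fac_exists (N : ℕ) : ∀ P : Polynomial ℂ, P.natDegree ≤ N → P.eval 0 = 1 →
    ∃ ζ : ℕ → ℂ, ∀ x, P.eval x = ∏ i ∈ Finset.range N, (1 - ζ i * x) := by
  induction N with
  | zero =>
    intro P hd h0
    refine ⟨fun _ => 0, fun x => ?_⟩
    rw [Polynomial.eq_C_of_natDegree_eq_zero (Nat.le_zero.1 hd)] at h0 ⊢
    simpa using h0
  | succ N ih =>
    intro P hd h0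
    by_cases hdeg : 0 < P.degree
    · obtain ⟨r, hr⟩ := Complex.exists_root hdeg
      have hr0 : r ≠ 0 := by
        rintro rfl
        rw [IsRoot.def] at hr
        rw [hr] at h0
        exact zero_ne_one h0
      obtain ⟨Q, hQ⟩ := dvd_iff_isRoot.2 hr
      have hP0 : P ≠ 0 := by
        rintro rfl
        simp at h0
      have hQ0 : Q ≠ 0 := by
        rintro rfl
        rw [mul_zero] at hQ
        exact hP0 hQ
      have hdQ : Q.natDegree ≤ N := by
        have := natDegree_mul (X_sub_C_ne_zero r) hQ0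
        rw [← hQ, natDegree_X_sub_C] at this
        omega
      obtain ⟨ζ, hζ⟩ := ih (C (-r) * Q) ((natDegree_C_mul_le _ _).trans hdQ) (by
        rw [hQ] at h0
        simpa using h0)
      refine ⟨fun i => if i = N then 1 / r else ζ i, fun x => ?_⟩
      rw [Finset.prod_range_succ]
      beta_reduce
      have h1 : ∏ i ∈ Finset.range N, (1 - (if i = N then 1 / r else ζ i) * x)
          = (C (-r) * Q).eval x := by
        rw [hζ]
        apply Finset.prod_congr rfl
        intro i hi
        rw [Finset.mem_range] at hi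
        rw [if_neg (by omega)]
      rw [h1, if_pos rfl, hQ]
      simp only [eval_mul, eval_sub, eval_X, eval_C]
      field_simp
      ring
    · have h3 : P.natDegree = 0 := by
        by_contra h
        exact hdeg (natDegree_pos_iff_degree_pos.1 (Nat.pos_of_ne_zero h))
      obtain ⟨ζ, hζ⟩ := ih P (by omega) h0
      refine ⟨fun i => if i = N then 0 else ζ i, fun x => ?_⟩
      rw [Finset.prod_range_succ, hζ]
      beta_reduce
      rw [if_pos rfl, zero_mul, sub_zero, mul_one]
      apply Finset.prod_congr rfl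
      intro i hi
      rw [Finset.mem_range] at hi
      rw [if_neg (by omega)]

lemma pert {N : ℕ} {F : ℝ → Polynomial ℂ} {θ0 : ℝ} (hdeg : ∀ θ, (F θ).natDegree ≤ N)
    (h1 : ∀ θ, (F θ).eval 0 = 1) (hc : ∀ x, Continuous fun θ => (F θ).eval x)
    {u : ℕ → ℂ} (hu : ∀ x, (F θ0).eval x = ∏ i ∈ Finset.range N, (1 - u i * x))
    (hu0 : ∀ i, i < N → u i ≠ 0) {ε : ℝ} (hε : 0 < ε)
    (hsep : ∀ i j, i < j → j < N → 2 * ε ≤ ‖u i - u j‖) :
    ∀ᶠ θ in 𝓝 θ0, ∃ u' : ℕ → ℂ, (∀ x, (F θ).eval x = ∏ i ∈ Finset.range N, (1 - u' i * x)) ∧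
      ∀ i, i < N → ‖u' i - u i‖ < ε := by
  have hev : ∀ᶠ θ in 𝓝 θ0, ∀ i ∈ Finset.range N,
      ‖(F θ).eval (1 / u i)‖ * ‖u i‖ ^ N < ε ^ N := by
    rw [Filter.eventually_all_finset]
    intro i hi
    rw [Finset.mem_range] at hi
    have h3 : (F θ0).eval (1 / u i) = 0 := by
      rw [hu]
      apply Finset.prod_eq_zero (Finset.mem_range.2 hi)
      rw [mul_one_div_cancel (hu0 i hi), sub_self]
    have h4 : Continuous fun θ => ‖(F θ).eval (1 / u i)‖ * ‖u i‖ ^ N :=
      (hc (1 / u i)).norm.mul continuous_const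
    have h5 : ‖(F θ0).eval (1 / u i)‖ * ‖u i‖ ^ N < ε ^ N := by
      rw [h3, norm_zero, zero_mul]
      exact pow_pos hε N
    exact h4.continuousAt.eventually_lt continuousAt_const h5
  filter_upwards [hev] with θ hθ
  obtain ⟨ζ, hζ⟩ := fac_exists N (F θ) (hdeg θ) (h1 θ)
  have hex : ∀ i, ∃ l, i < N → l < N ∧ ‖ζ l - u i‖ < ε := by
    intro i
    by_cases hi : i < N
    · by_contra hcon
      push Not at hcon
      have h5 : ∀ l, l < N → ε ≤ ‖ζ l - u i‖ := fun l hl => (hcon l).2 hl
      have h6 : ε ^ N ≤ ∏ l ∈ Finset.range N, ‖ζ l - u i‖ := by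
        calc ε ^ N = ∏ l ∈ Finset.range N, ε := by simp
          _ ≤ _ := Finset.prod_le_prod (fun _ _ => hε.le)
            (fun l hl => h5 l (Finset.mem_range.1 hl))
      have h7 : ‖(F θ).eval (1 / u i)‖ * ‖u i‖ ^ N = ∏ l ∈ Finset.range N, ‖ζ l - u i‖ := by
        rw [hζ, norm_prod]
        have h8 : ‖u i‖ ^ N = ∏ l ∈ Finset.range N, ‖u i‖ := by simp
        rw [h8, ← Finset.prod_mul_distrib]
        apply Finset.prod_congr rfl
        intro l _
        rw [← norm_mul, norm_sub_rev]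
        congr 1
        have := hu0 i hi
        field_simp
      have h9 := hθ i (Finset.mem_range.2 hi)
      rw [h7] at h9
      linarith
    · exact ⟨0, fun h => absurd h hi⟩
  choose σ hσ using hex
  have key : ∀ i j, i < j → j < N → σ i ≠ σ j := by
    intro i j hij hj he
    have h8 := hsep i j hij hj
    have h9 := (hσ i (by omega)).2
    have h10 := (hσ j hj).2
    rw [he] at h9
    have h11 : ‖u i - u j‖ ≤ ‖ζ (σ j) - u j‖ + ‖ζ (σ j) - u i‖ := by
      have : u i - u j = (ζ (σ j) - u j) - (ζ (σ j) - u i) := by ring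
      rw [this]
      exact norm_sub_le _ _
    linarith
  have hinj : Set.InjOn σ (Finset.range N) := by
    intro i hi j hj hij
    simp only [Finset.coe_range, Set.mem_Iio] at hi hj
    by_contra hne
    rcases lt_or_gt_of_ne hne with h | h
    · exact key i j h hj hij
    · exact key j i h hi hij.symm
  have himg : (Finset.range N).image σ = Finset.range N := by
    apply Finset.eq_of_subset_of_card_le
    · intro l hl
      rw [Finset.mem_image] at hl
      obtain ⟨i, hi, rfl⟩ := hl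
      exact Finset.mem_range.2 (hσ i (Finset.mem_range.1 hi)).1
    · rw [Finset.card_image_of_injOn hinj]
  refine ⟨fun i => ζ (σ i), fun x => ?_, fun i hi => (hσ i hi).2⟩
  rw [hζ]
  conv_lhs => rw [← himg]
  rw [Finset.prod_image hinj]

lemma exists_eps (a : ℕ → ℝ) (M : ℕ) (h : ∀ j, j < M → 0 < a j) :
    ∃ ε : ℝ, 0 < ε ∧ ∀ j, j < M → 2 * ε < a j := by
  induction M with
  | zero => exact ⟨1, one_pos, fun j hj => by omega⟩
  | succ M ih =>
    obtain ⟨e, he, h1⟩ := ih (fun j hj => h j (by omega))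
    have h0 := h M (by omega)
    refine ⟨min e (a M / 4), lt_min he (by linarith), fun j hj => ?_⟩
    rcases Nat.lt_or_ge j M with h2 | h2
    · have h3 := h1 j h2
      have h4 := min_le_left e (a M / 4)
      linarith
    · have h5 : j = M := by omega
      subst h5
      have h4 := min_le_right e (a j / 4)
      linarith

lemma cont_eval {Q : ℝ → ℂ} (hQ : Continuous Q) (N : ℕ) (x : ℂ) :
    Continuous fun θ => (pc (Q θ) N).eval x := by
  simp only [eval_pc]
  fun_prop

lemma St.near {ρ : ℝ} {M : ℕ} {Q : ℝ → ℂ} (hQ : Continuous Q) {θ0 : ℝ} (hρ1 : ρ ≤ 1)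
    (hQ0 : Q θ0 ≠ 0) {u v : ℕ → ℂ} (h : St ρ (Q θ0) M u v) :
    ∀ᶠ θ in 𝓝 θ0, ∃ u' v', St ρ (Q θ) M u' v' := by
  obtain ⟨ε, hε, he⟩ := exists_eps
    (fun j => min (‖u j‖ - ‖v j‖) (ρ * ‖v j‖ - ‖u (j + 1)‖)) M (fun j hj =>
      lt_min (sub_pos.2 (h.lt1 j hj)) (sub_pos.2 (h.lt2 j hj)))
  have he1 : ∀ j, j < M → 2 * ε < ‖u j‖ - ‖v j‖ := fun j hj =>
    (he j hj).trans_le (min_le_left _ _)
  have he2 : ∀ j, j < M → 2 * ε < ρ * ‖v j‖ - ‖u (j + 1)‖ := fun j hj =>
    (he j hj).trans_le (min_le_right _ _)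
  have hρv : ∀ j, ρ * ‖v j‖ ≤ ‖v j‖ := fun j => by
    have := mul_le_mul_of_nonneg_right hρ1 (norm_nonneg (v j))
    linarith
  have hu : ∀ i j, i < j → j < M + 1 → 2 * ε ≤ ‖u i‖ - ‖u j‖ := by
    intro i j hij hj
    induction j with
    | zero => omega
    | succ j ih =>
      have h1 := he1 j (by omega)
      have h2 := he2 j (by omega)
      have h3 := hρv j
      rcases Nat.lt_or_ge i j with h4 | h4
      · have h5 := ih h4 (by omega)
        linarith
      · have : i = j := by omega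
        subst this
        linarith
  have hv : ∀ i j, i < j → j < M → 2 * ε ≤ ‖v i‖ - ‖v j‖ := by
    intro i j hij hj
    induction j with
    | zero => omega
    | succ j ih =>
      have h1 := he1 (j + 1) (by omega)
      have h2 := he2 j (by omega)
      have h3 := hρv j
      rcases Nat.lt_or_ge i j with h4 | h4
      · have h5 := ih h4 (by omega)
        linarith
      · have : i = j := by omega
        subst this
        linarith
  have hU := pert (F := fun θ => pc (Q θ) (M + 1)) (θ0 := θ0) (fun θ => natDegree_pc_le _ _)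
    (fun θ => eval_zero_pc _ _) (fun x => cont_eval hQ (M + 1) x) h.fu
    (fun i hi => ne_zero_of_fac hQ0 h.fu hi) hε
    (fun i j hij hj => (hu i j hij hj).trans (norm_sub_norm_le _ _))
  have hV := pert (F := fun θ => pc (Q θ) M) (θ0 := θ0) (fun θ => natDegree_pc_le _ _)
    (fun θ => eval_zero_pc _ _) (fun x => cont_eval hQ M x) h.fv
    (fun i hi => ne_zero_of_fac hQ0 h.fv hi) hε
    (fun i j hij hj => (hv i j hij hj).trans (norm_sub_norm_le _ _))
  filter_upwards [hU, hV] with θ hU hV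
  obtain ⟨u', hu1, hu2⟩ := hU
  obtain ⟨v', hv1, hv2⟩ := hV
  refine ⟨u', v', hu1, hv1, fun j hj => ?_, fun j hj => ?_⟩
  · have h1 := he1 j hj
    have h2 := norm_sub_norm_le (v' j) (v j)
    have h3 := norm_sub_norm_le (u j) (u' j)
    have h4 := hu2 j (by omega)
    have h5 := hv2 j hj
    rw [norm_sub_rev] at h3
    linarith
  · have h1 := he2 j hj
    have h2 := norm_sub_norm_le (v j) (v' j)
    have h3 := norm_sub_norm_le (u' (j + 1)) (u (j + 1))
    have h4 := hu2 (j + 1) (by omega)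
    have h5 := hv2 j hj
    rw [norm_sub_rev] at h2
    have hρ0 : 0 ≤ ρ := by
      by_contra hcon
      have h6 := norm_nonneg (v j)
      have h7 := norm_nonneg (u (j + 1))
      nlinarith
    have h8 : ρ * (‖v j‖ - ‖v' j‖) ≤ ρ * ε := mul_le_mul_of_nonneg_left (by linarith) hρ0
    have h9 : ρ * ε ≤ ε := by nlinarith
    linarith

end Pool.Agent.TH247.RQC
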