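import Pool.Agent.TH247.RQC.Est

set_option autoImplicit false

namespace Pool.Agent.TH247.RQC

open Polynomial

/-- The roots of `P_{M+1}(.;q)` are the `1 / u i`, the ones of `P_M(.;q)` the `1 / v i`, and they
interlace (weakly) in modulus. -/
structure Wk (ρ : ℝ) (q : ℂ) (M : ℕ) (u v : ℕ → ℂ) : Prop where
  fu : ∀ x, (pc q (M + 1)).eval x = ∏ i ∈ Finset.range (M + 1), (1 - u i * x)
  fv : ∀ x, (pc q M).eval x = ∏ i ∈ Finset.range M, (1 - v i * x)
  le1 : ∀ j, j < M → ‖v j‖ ≤ ‖u j‖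
  le2 : ∀ j, j < M → ‖u (j + 1)‖ ≤ ρ * ‖v j‖

/-- The same with strict inequalities. -/
structure St (ρ : ℝ) (q : ℂ) (M : ℕ) (u v : ℕ → ℂ) : Prop where
  fu : ∀ x, (pc q (M + 1)).eval x = ∏ i ∈ Finset.range (M + 1), (1 - u i * x)
  fv : ∀ x, (pc q M).eval x = ∏ i ∈ Finset.range M, (1 - v i * x)
  lt1 : ∀ j, j < M → ‖v j‖ < ‖u j‖
  lt2 : ∀ j, j < M → ‖u (j + 1)‖ < ρ * ‖v j‖

lemma St.wk {ρ : ℝ} {q : ℂ} {M : ℕ} {u v : ℕ → ℂ} (h : St ρ q M u v) : Wk ρ q M u v :=
  ⟨h.fu, h.fv, fun j hj => (h.lt1 j hj).le, fun j hj => (h.lt2 j hj).le⟩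

/-- the factors are not constant -/
lemma ne_zero_of_fac {q : ℂ} (hq : q ≠ 0) {N : ℕ} {u : ℕ → ℂ}
    (h : ∀ x, (pc q N).eval x = ∏ i ∈ Finset.range N, (1 - u i * x)) {i : ℕ} (hi : i < N) :
    u i ≠ 0 := by
  intro h0
  have hpoly : pc q N = ∏ i ∈ Finset.range N, (1 - C (u i) * X) := by
    apply Polynomial.funext
    intro t
    rw [h t, eval_prod]
    apply Finset.prod_congr rfl
    intro i _
    simp
  have him : i ∈ Finset.range N := Finset.mem_range.2 hi
  have hd : (pc q N).natDegree ≤ N - 1 := by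
    rw [hpoly, ← Finset.mul_prod_erase _ _ him, h0]
    simp only [C_0, zero_mul, sub_zero, one_mul]
    refine (natDegree_prod_le _ _).trans ?_
    calc ∑ j ∈ (Finset.range N).erase i, (1 - C (u j) * X : Polynomial ℂ).natDegree
        ≤ ∑ j ∈ (Finset.range N).erase i, 1 := by
          apply Finset.sum_le_sum
          intro j _
          have : (1 - C (u j) * X : Polynomial ℂ) = C (-u j) * X + C 1 := by
            rw [C_1, C_neg]; ring
          rw [this]
          exact natDegree_linear_le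
      _ = N - 1 := by
          rw [Finset.sum_const, Finset.card_erase_of_mem him, Finset.card_range]
          simp
  have hc : (pc q N).coeff N ≠ 0 := by
    rw [coeff_pc, Nat.choose_self, Nat.cast_one, one_mul]
    exact pow_ne_zero _ hq
  have := le_natDegree_of_ne_zero hc
  omega

lemma Wk.sep {ρ : ℝ} {q : ℂ} {M : ℕ} {u v : ℕ → ℂ} (h : Wk ρ q M u v) (hρ : 0 ≤ ρ) (i : ℕ)
    (hi : i < M) : ‖u (i + 1)‖ ≤ ρ * ‖u i‖ :=
  (h.le2 i hi).trans (mul_le_mul_of_nonneg_left (h.le1 i hi) hρ)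

/-- The weak interlacing is strict. -/
lemma Wk.st {ρ : ℝ} {q : ℂ} {M : ℕ} {u v : ℕ → ℂ} (h : Wk ρ q M u v) (hρ0 : 0 < ρ)
    (hρ : ρ ≤ 11 / 25) (hq : ‖q‖ = ρ) : St ρ q M u v := by
  have hq0 : q ≠ 0 := by
    rintro rfl
    rw [norm_zero] at hq
    linarith
  have hu0 : ∀ i, i ≤ M → u i ≠ 0 := fun i hi => ne_zero_of_fac hq0 h.fu (by omega)
  have hv0 : ∀ i, i < M → v i ≠ 0 := fun i hi => ne_zero_of_fac hq0 h.fv hi
  have hsep : ∀ i, i < M → ‖u (i + 1)‖ ≤ (11 / 25 : ℝ) * ‖u i‖ := fun i hi =>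
    (h.sep hρ0.le i hi).trans (mul_le_mul_of_nonneg_right hρ (norm_nonneg _))
  have hno : ∀ k, 1 ≤ k → k ≤ M → ∀ x : ℂ, ‖u k‖ * ‖x‖ = 1 → (pc q M).eval (q * x) ≠ 0 :=
    fun k h1 h2 x hx => no_crit hu0 hsep h.fu h1 h2 hx
  have hanti : ∀ i j, i < j → j ≤ M → ‖u j‖ < ‖u i‖ := by
    intro i j hij hj
    obtain ⟨m, hm⟩ := Nat.exists_eq_add_of_lt hij
    have h1 := sep_up hsep (i := i) (j := m + 1) (by omega)
    have h2 : (11 / 25 : ℝ) ^ (m + 1) < 1 := pow_lt_one₀ (by norm_num) (by norm_num) (by omega)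
    have h3 : 0 < ‖u i‖ := norm_pos_iff.2 (hu0 i (by omega))
    have h4 : j = i + (m + 1) := by omega
    rw [h4]
    nlinarith
  refine ⟨h.fu, h.fv, fun j hj => ?_, fun j hj => ?_⟩
  · refine lt_of_le_of_ne (h.le1 j hj) fun he => ?_
    obtain ⟨m, rfl⟩ : ∃ m, M = m + 1 := ⟨M - 1, by omega⟩
    -- the root `u j / q ^ M` of `P_{M+1}`
    have hr1 : ∀ i, i ≤ m + 1 → ∃ l, l ≤ m + 1 ∧ u l * u i = q ^ (m + 1) := by
      intro i hi
      have h1 : (pc q (m + 1 + 1)).eval (1 / u i) = 0 := by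
        rw [h.fu]
        apply Finset.prod_eq_zero (i := i) (by simp; omega)
        rw [mul_one_div_cancel (hu0 i hi), sub_self]
      rw [eval_symm q _ hq0 (one_div_ne_zero (hu0 i hi)) (m + 1)] at h1
      have h2 := (mul_eq_zero.1 h1).resolve_left
        (mul_ne_zero (pow_ne_zero _ hq0) (pow_ne_zero _ (one_div_ne_zero (hu0 i hi))))
      rw [h.fu, Finset.prod_eq_zero_iff] at h2
      obtain ⟨l, hl, h3⟩ := h2
      rw [Finset.mem_range] at hl
      refine ⟨l, by omega, ?_⟩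
      have h4 := hu0 i hi
      have h5 : q ^ (m + 1) ≠ 0 := pow_ne_zero _ hq0
      have h6 : 1 / (q ^ (m + 1) * (1 / u i)) = u i / q ^ (m + 1) := by
        field_simp
      rw [h6, sub_eq_zero] at h3
      rw [eq_comm, mul_div_assoc', div_eq_iff h5, one_mul] at h3
      exact h3
    obtain ⟨l, hl, hlj⟩ := hr1 j (by omega)
    have hl1 : 1 ≤ l := by
      by_contra hl0
      have : l = 0 := by omega
      subst this
      obtain ⟨l', hl', h7⟩ := hr1 (m + 1) le_rfl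
      have h8 : ‖u 0‖ * ‖u j‖ = ‖u l'‖ * ‖u (m + 1)‖ := by
        rw [← norm_mul, ← norm_mul, hlj, h7]
      have h9 := hanti j (m + 1) hj le_rfl
      have h10 : ‖u l'‖ ≤ ‖u 0‖ := by
        rcases Nat.eq_zero_or_pos l' with h11 | h11
        · rw [h11]
        · exact (hanti 0 l' h11 hl').le
      have h12 : 0 < ‖u 0‖ := norm_pos_iff.2 (hu0 0 (by omega))
      have h13 : 0 ≤ ‖u (m + 1)‖ := norm_nonneg _
      nlinarith [mul_le_mul_of_nonneg_right h10 h13, mul_lt_mul_of_pos_left h9 h12]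
    -- the root `v j / q ^ (M - 1)` of `P_M`
    have hr2 : (pc q (m + 1)).eval (v j / q ^ m) = 0 := by
      have h1 : (pc q (m + 1)).eval (1 / v j) = 0 := by
        rw [h.fv]
        apply Finset.prod_eq_zero (i := j) (by simpa using hj)
        rw [mul_one_div_cancel (hv0 j hj), sub_self]
      rw [eval_symm q _ hq0 (one_div_ne_zero (hv0 j hj)) m] at h1
      have h2 := (mul_eq_zero.1 h1).resolve_left
        (mul_ne_zero (pow_ne_zero _ hq0) (pow_ne_zero _ (one_div_ne_zero (hv0 j hj))))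
      have h4 := hv0 j hj
      have h5 : q ^ m ≠ 0 := pow_ne_zero _ hq0
      have h6 : 1 / (q ^ m * (1 / v j)) = v j / q ^ m := by
        field_simp
      rw [h6] at h2
      exact h2
    refine hno l hl1 hl (v j / q ^ (m + 1)) ?_ ?_
    · rw [norm_div, he, ← norm_div, ← norm_mul, ← mul_div_assoc, hlj,
        div_self (pow_ne_zero _ hq0), norm_one]
    · have h7 : q * (v j / q ^ (m + 1)) = v j / q ^ m := by
        rw [pow_succ]
        field_simp
      rw [h7]
      exact hr2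
  · refine lt_of_le_of_ne (h.le2 j hj) fun he => ?_
    refine hno (j + 1) (by omega) (by omega) (1 / (q * v j)) ?_ ?_
    · have h1 : 0 < ‖v j‖ := norm_pos_iff.2 (hv0 j hj)
      rw [norm_div, norm_mul, norm_one, hq, he]
      field_simp
    · have h1 := hv0 j hj
      have h2 : q * (1 / (q * v j)) = 1 / v j := by
        field_simp
      rw [h2, h.fv]
      apply Finset.prod_eq_zero (i := j) (by simpa using hj)
      rw [mul_one_div_cancel h1, sub_self]

end Pool.Agent.TH247.RQC
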